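import Mathlib
import Pool.Agent.H81.GeomMean

namespace Pool.Agent.Results.MP_808d7a_gt.Bound

open Pool.Agent.H81.GeomMean

/-- `g_n ≤ κ_n / 2^n`, where `κ_n = π^(n/2) / Γ(n/2 + 1)` is the volume of the unit ball; hence
`g_n ≥ c^n` fails for every `c > 0`. -/
theorem result :
    ∀ n : ℕ, 1 ≤ n → g n ≤ Real.sqrt Real.pi ^ n / Real.Gamma (n / 2 + 1) / 2 ^ n :=
  g_le

end Pool.Agent.Results.MP_808d7a_gt.Bound
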